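import Mathlib

/-! Polluted transitive closure on the Hamming graph: definitions. -/

namespace Pool.Agent.H791Z.Ham

open Finset

/-- `E₀`: the edges of the Hamming graph on `[n]^d`: pairs differing in exactly one coordinate. -/
def E0 (d n : ℕ) : Set (Sym2 (Fin d → Fin n)) := {e | ∃ x y, e = s(x, y) ∧ hammingDist x y = 1}

open Classical in
/-- The unordered pairs of distinct vertices that are not edges of the Hamming graph. -/
noncomputable def nonEdges (d n : ℕ) : Finset (Sym2 (Fin d → Fin n)) :=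
  univ.filter (fun e => ¬ e.IsDiag ∧ e ∉ E0 d n)

/-- `E_t`: the occupied edges at time `t` when `O` is the set of open edges. -/
def occ {d n : ℕ} (O : Finset (Sym2 (Fin d → Fin n))) : ℕ → Set (Sym2 (Fin d → Fin n))
  | 0 => E0 d n
  | t + 1 => occ O t ∪ {e | e ∈ O ∧ ∃ x y z, e = s(x, y) ∧ s(x, z) ∈ occ O t ∧ s(z, y) ∈ occ O t}

/-- Saturation: `E_∞ = E₀ ∪ E_open`. -/
def Saturated {d n : ℕ} (O : Finset (Sym2 (Fin d → Fin n))) : Prop :=
  (⋃ t, occ O t) = E0 d n ∪ (O : Set (Sym2 (Fin d → Fin n)))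

open Classical in
/-- The probability of saturation when every non-edge is open independently with probability `p`. -/
noncomputable def satProb (d n : ℕ) (p : ℝ) : ℝ :=
  ∑ O ∈ (nonEdges d n).powerset,
    if Saturated O then p ^ O.card * (1 - p) ^ ((nonEdges d n).card - O.card) else 0

/-- The critical density. -/
noncomputable def pc (d n : ℕ) : ℝ :=
  sInf {p : ℝ | 0 ≤ p ∧ p ≤ 1 ∧ ∀ q : ℝ, p ≤ q → q ≤ 1 → 1 / 2 ≤ satProb d n q}

end Pool.Agent.H791Z.Ham
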