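import Mathlib

/-! Finite product probability on subsets of a finite set. -/

namespace Pool.Agent.H791Z.Ham

open Finset

variable {α : Type} [DecidableEq α]

open Classical in
/-- probability of an event under independent sampling of the elements of `U` -/
noncomputable def Pr (U : Finset α) (p : ℝ) (A : Finset α → Prop) : ℝ :=
  ∑ O ∈ U.powerset, if A O then p ^ O.card * (1 - p) ^ (U.card - O.card) else 0

variable {U : Finset α} {p : ℝ}

omit [DecidableEq α] in
lemma Pr_add_not (A : Finset α → Prop) : Pr U p A + Pr U p (fun O => ¬ A O) = 1 := by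
  classical
  unfold Pr
  rw [← sum_add_distrib]
  have := Finset.sum_pow_mul_eq_add_pow p (1 - p) U
  rw [add_sub_cancel, one_pow] at this
  refine Eq.trans (sum_congr rfl fun O _ => ?_) this
  by_cases h : A O <;> simp [h]

omit [DecidableEq α] in
lemma Pr_markov {ι : Type} (h0 : 0 ≤ p) (h1 : p ≤ 1) (A : Finset α → Prop) (S : Finset ι)
    (B : ι → Finset α → Prop) (t : ℕ)
    (h : ∀ O ⊆ U, A O → ∃ T ⊆ S, t ≤ T.card ∧ ∀ i ∈ T, B i O) :
    t * Pr U p A ≤ ∑ i ∈ S, Pr U p (B i) := by
  classical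
  unfold Pr
  rw [sum_comm, mul_sum]
  refine sum_le_sum fun O hO => ?_
  have hw : 0 ≤ p ^ O.card * (1 - p) ^ (U.card - O.card) := by
    have : 0 ≤ 1 - p := by linarith
    positivity
  by_cases hA : A O
  · obtain ⟨T, hT, ht, hB⟩ := h O (mem_powerset.1 hO) hA
    rw [if_pos hA]
    calc (t : ℝ) * (p ^ O.card * (1 - p) ^ (U.card - O.card))
        ≤ T.card * (p ^ O.card * (1 - p) ^ (U.card - O.card)) :=
          mul_le_mul_of_nonneg_right (by exact_mod_cast ht) hw
      _ = ∑ i ∈ T, (if B i O then p ^ O.card * (1 - p) ^ (U.card - O.card) else 0) := by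
          rw [sum_congr rfl (fun i hi => if_pos (hB i hi)), sum_const, nsmul_eq_mul]
      _ ≤ _ := sum_le_sum_of_subset_of_nonneg hT (fun i _ _ => by split_ifs <;> simp [hw])
  · rw [if_neg hA, mul_zero]
    exact sum_nonneg fun i _ => by split_ifs <;> simp [hw]

omit [DecidableEq α] in
lemma Pr_union {ι : Type} (h0 : 0 ≤ p) (h1 : p ≤ 1) (A : Finset α → Prop) (S : Finset ι)
    (B : ι → Finset α → Prop) (h : ∀ O ⊆ U, A O → ∃ i ∈ S, B i O) :
    Pr U p A ≤ ∑ i ∈ S, Pr U p (B i) := by
  have := Pr_markov h0 h1 A S B 1 (U := U) (fun O hO hA => by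
    obtain ⟨i, hi, hB⟩ := h O hO hA
    exact ⟨{i}, by simpa using hi, by simp, by simpa using hB⟩)
  simpa using this

omit [DecidableEq α] in
lemma Pr_or3 (h0 : 0 ≤ p) (h1 : p ≤ 1) (A B C D : Finset α → Prop)
    (h : ∀ O ⊆ U, A O → B O ∨ C O ∨ D O) : Pr U p A ≤ Pr U p B + Pr U p C + Pr U p D := by
  have := Pr_union h0 h1 A (univ : Finset (Fin 3)) ![B, C, D] (U := U) (fun O hO hA => by
    rcases h O hO hA with h | h | h
    · exact ⟨0, mem_univ _, h⟩
    · exact ⟨1, mem_univ _, h⟩
    · exact ⟨2, mem_univ _, h⟩)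
  simpa [Fin.sum_univ_three] using this

lemma Pr_subset (h0 : 0 ≤ p) (W : Finset α) : Pr U p (fun O => W ⊆ O) ≤ p ^ W.card := by
  classical
  by_cases hW : W ⊆ U
  · have := Finset.prod_add (fun _ : α => p) (fun i => if i ∈ W then 0 else 1 - p) U
    have e : ∏ i ∈ U, (p + if i ∈ W then 0 else 1 - p) = p ^ W.card := by
      have : ∀ i, (p + if i ∈ W then 0 else 1 - p) = if i ∈ W then p else 1 := by
        intro i; split_ifs <;> ring
      simp only [this]
      rw [prod_ite_mem, inter_eq_right.2 hW, prod_const]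
    rw [← e, this]
    refine le_of_eq (sum_congr rfl fun O hO => ?_)
    rw [mem_powerset] at hO
    split_ifs with h
    · rw [prod_const, prod_congr rfl (g := fun _ => 1 - p), prod_const, card_sdiff_of_subset hO]
      intro i hi
      rw [if_neg (fun h' => (mem_sdiff.1 hi).2 (h h'))]
    · obtain ⟨i, hi, hi'⟩ := not_subset.1 h
      rw [prod_eq_zero (f := fun i => if i ∈ W then (0 : ℝ) else 1 - p) (mem_sdiff.2 ⟨hW hi, hi'⟩)
        (if_pos hi), mul_zero]
  · refine le_trans (le_of_eq (sum_eq_zero fun O hO => if_neg fun h => hW ?_)) (by positivity)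
    exact h.trans (mem_powerset.1 hO)

lemma Pr_disjoint (h1 : p ≤ 1) (W : Finset α) :
    Pr U p (fun O => W ⊆ U ∧ Disjoint O W) ≤ Real.exp (-(p * W.card)) := by
  classical
  by_cases hW : W ⊆ U
  · have := Finset.prod_add (fun i : α => if i ∈ W then 0 else p) (fun _ => 1 - p) U
    have e : ∏ i ∈ U, ((if i ∈ W then 0 else p) + (1 - p)) = (1 - p) ^ W.card := by
      have : ∀ i, ((if i ∈ W then 0 else p) + (1 - p)) = if i ∈ W then 1 - p else 1 := by
        intro i; split_ifs <;> ring
      simp only [this]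
      rw [prod_ite_mem, inter_eq_right.2 hW, prod_const]
    have e2 : (1 - p) ^ W.card ≤ Real.exp (-(p * W.card)) := by
      rw [show -(p * W.card) = W.card * (-p) by ring, Real.exp_nat_mul]
      exact pow_le_pow_left₀ (by linarith) (by linarith [Real.add_one_le_exp (-p)]) _
    refine le_trans ?_ e2
    rw [← e, this]
    refine le_of_eq (sum_congr rfl fun O hO => ?_)
    rw [mem_powerset] at hO
    split_ifs with h
    · rw [prod_const, prod_congr rfl (g := fun _ => p), prod_const, card_sdiff_of_subset hO]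
      intro i hi
      rw [if_neg (disjoint_left.1 h.2 hi)]
    · obtain ⟨i, hi, hi'⟩ := not_disjoint_iff.1 (fun h' => h ⟨hW, h'⟩)
      rw [prod_eq_zero (f := fun i => if i ∈ W then (0 : ℝ) else p) hi (if_pos hi'), zero_mul]
  · exact le_trans (le_of_eq (sum_eq_zero fun O _ => if_neg fun h => hW h.1)) (by positivity)

end Pool.Agent.H791Z.Ham
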