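import Mathlib
import Pool.Agent.H791Z.Ham.Defs
import Pool.Agent.H791Z.Ham.Prob

/-! The supercritical side. -/

namespace Pool.Agent.H791Z.Ham

open Finset Function

variable {d n : ℕ}

lemma occ_mono (O : Finset (Sym2 (Fin d → Fin n))) {s t : ℕ} (h : s ≤ t) : occ O s ⊆ occ O t := by
  induction h with
  | refl => exact subset_rfl
  | step _ ih => exact ih.trans Set.subset_union_left

lemma occ_subset (O : Finset (Sym2 (Fin d → Fin n))) (t : ℕ) :
    occ O t ⊆ E0 d n ∪ (O : Set (Sym2 (Fin d → Fin n))) := by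
  induction t with
  | zero => exact Set.subset_union_left
  | succ t ih =>
    rintro e (he | he)
    · exact ih he
    · exact Or.inr he.1

lemma hamming_update (x : Fin d → Fin n) (i : Fin d) {a b : Fin n} (h : a ≠ b) :
    hammingDist (update x i a) (update x i b) = 1 := by
  unfold hammingDist
  rw [card_eq_one]
  refine ⟨i, ?_⟩
  ext j
  by_cases hj : j = i
  · subst hj; simp [h]
  · simp [hj]

lemma mem_E0 {x y : Fin d → Fin n} : s(x, y) ∈ E0 d n ↔ hammingDist x y = 1 := by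
  constructor
  · rintro ⟨a, b, h, hab⟩
    rcases Sym2.eq_iff.1 h with ⟨rfl, rfl⟩ | ⟨rfl, rfl⟩
    · exact hab
    · rwa [hammingDist_comm]
  · exact fun h => ⟨x, y, rfl, h⟩

/-- the point with coordinates `a`, `c` of the plane through `b` in directions `i`, `j` -/
def pt (b : Fin d → Fin n) (i j : Fin d) (a c : Fin n) : Fin d → Fin n := update (update b i a) j c

lemma pt_swap (b : Fin d → Fin n) {i j : Fin d} (h : i ≠ j) (a c : Fin n) :
    pt b i j a c = pt b j i c a := by
  unfold pt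
  rw [update_comm h]

/-- the pairs from `y` to a rectangle -/
def rect (y b : Fin d → Fin n) (i j : Fin d) (A C : Finset (Fin n)) :
    Finset (Sym2 (Fin d → Fin n)) :=
  (((A ×ˢ C).image (fun ac => pt b i j ac.1 ac.2)).erase y).image (fun x => s(x, y))

lemma card_rect (y b : Fin d → Fin n) {i j : Fin d} (h : i ≠ j) (A C : Finset (Fin n)) :
    A.card * C.card ≤ (rect y b i j A C).card + 1 := by
  unfold rect
  rw [card_image_of_injective _ (fun x x' hx => Sym2.congr_left.1 hx)]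
  refine le_trans ?_ (Nat.sub_le_iff_le_add.1 pred_card_le_card_erase)
  rw [card_image_of_injective, card_product]
  rintro ⟨a, c⟩ ⟨a', c'⟩ hx
  have h1 := congrFun hx i
  have h2 := congrFun hx j
  simp only [pt, update_of_ne h, update_self] at h1 h2
  rw [h1, h2]

lemma shrink (hn : 2 ≤ n) (A C : Finset (Fin n)) (hA : A.Nonempty) (hC : C.Nonempty)
    (h : n ≤ A.card + C.card) :
    ∃ k ∈ Icc 1 (n - 1), ∃ A' ∈ powersetCard k (univ : Finset (Fin n)),
      ∃ C' ∈ powersetCard (n - k) (univ : Finset (Fin n)), A' ⊆ A ∧ C' ⊆ C := by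
  have a1 := card_pos.2 hA
  have c1 := card_pos.2 hC
  obtain ⟨A', hA', hk⟩ := exists_subset_card_eq (s := A) (n := min A.card (n - 1)) (min_le_left _ _)
  obtain ⟨C', hC', hk'⟩ := exists_subset_card_eq (s := C) (n := n - min A.card (n - 1)) (by omega)
  exact ⟨min A.card (n - 1), mem_Icc.2 ⟨by omega, min_le_right _ _⟩, A',
    mem_powersetCard.2 ⟨subset_univ _, hk⟩, C', mem_powersetCard.2 ⟨subset_univ _, hk'⟩, hA', hC'⟩

/-- deterministic part -/
lemma saturated_of_rect (hd : 2 ≤ d) (hn : 2 ≤ n) (O : Finset (Sym2 (Fin d → Fin n)))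
    (hO : O ⊆ nonEdges d n)
    (h : ∀ (y b : Fin d → Fin n) (i j : Fin d), i ≠ j → ∀ k ∈ Icc 1 (n - 1),
      ∀ A ∈ powersetCard k (univ : Finset (Fin n)),
      ∀ C ∈ powersetCard (n - k) (univ : Finset (Fin n)),
      ¬ (rect y b i j A C ⊆ nonEdges d n ∧ Disjoint O (rect y b i j A C))) : Saturated O := by
  classical
  have hgood : ∀ (y b : Fin d → Fin n) (i j : Fin d), i ≠ j → ∀ A C : Finset (Fin n),
      A.Nonempty → C.Nonempty → n ≤ A.card + C.card → ∃ a ∈ A, ∃ c ∈ C,
        s(pt b i j a c, y) ∈ E0 d n ∨ s(pt b i j a c, y) ∈ O := by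
    intro y b i j hij A C hA hC hAC
    obtain ⟨k, hk, A', hA', C', hC', sA, sC⟩ := shrink hn A C hA hC hAC
    by_contra hcon
    push Not at hcon
    refine h y b i j hij k hk A' hA' C' hC' ⟨?_, ?_⟩
    · intro e he
      simp only [rect, mem_image, mem_erase, mem_product] at he
      obtain ⟨x, ⟨hx, ⟨a, c⟩, ⟨ha, hc⟩, rfl⟩, rfl⟩ := he
      simp only [nonEdges, mem_filter, mem_univ, true_and, Sym2.mk_isDiag_iff]
      exact ⟨hx, (hcon a (sA ha) c (sC hc)).1⟩
    · rw [disjoint_right]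
      intro e he
      simp only [rect, mem_image, mem_erase, mem_product] at he
      obtain ⟨x, ⟨hx, ⟨a, c⟩, ⟨ha, hc⟩, rfl⟩, rfl⟩ := he
      exact (hcon a (sA ha) c (sC hc)).2
  refine Set.Subset.antisymm (Set.iUnion_subset (occ_subset O)) ?_
  suffices H : ∀ x y : Fin d → Fin n, (s(x, y) ∈ E0 d n ∨ s(x, y) ∈ O) → ∃ t, s(x, y) ∈ occ O t by
    intro e he
    induction e using Sym2.ind with
    | _ x y => exact Set.mem_iUnion.2 (H x y he)
  intro x y
  let R : (Fin d → Fin n) → Prop := fun w => ∃ t, s(w, y) ∈ occ O t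
  let G : (Fin d → Fin n) → Prop := fun w => s(w, y) ∈ E0 d n ∨ s(w, y) ∈ O
  have step : ∀ (w : Fin d → Fin n) (i : Fin d) (a c : Fin n),
      R (update w i a) → G (update w i c) → R (update w i c) := by
    rintro w i a c ⟨t, ht⟩ (hG | hG)
    · exact ⟨0, hG⟩
    · by_cases hac : c = a
      · exact ⟨t, hac ▸ ht⟩
      · exact ⟨t + 1, Or.inr ⟨hG, _, _, update w i a, rfl,
          occ_mono O (Nat.zero_le t) (mem_E0.2 (hamming_update w i hac)), ht⟩⟩
  have plane : ∀ (b : Fin d → Fin n) (i j : Fin d), i ≠ j → (∃ a c, R (pt b i j a c)) →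
      ∀ a, ∃ c, R (pt b i j a c) := by
    intro b i j hij ⟨a0, c0, h0⟩
    let A : Finset (Fin n) := univ.filter (fun a => ∃ c, R (pt b i j a c))
    let B : Finset (Fin n) := univ.filter (fun c => ∃ a, R (pt b i j a c))
    have hA : A.Nonempty := ⟨a0, mem_filter.2 ⟨mem_univ _, c0, h0⟩⟩
    have hB : B.Nonempty := ⟨c0, mem_filter.2 ⟨mem_univ _, a0, h0⟩⟩
    have cA : A.card + Aᶜ.card = n := by rw [card_add_card_compl, Fintype.card_fin]
    have cB : B.card + Bᶜ.card = n := by rw [card_add_card_compl, Fintype.card_fin]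
    have hAu : Aᶜ = ∅ := by
      by_contra hne
      have hne : Aᶜ.Nonempty := nonempty_iff_ne_empty.2 hne
      have hpos := card_pos.2 hne
      rcases le_or_gt A.card B.card with hle | hlt
      · obtain ⟨a, ha, c, hc, hg⟩ := hgood y b i j hij Aᶜ B hne hB (by omega)
        obtain ⟨a', ha'⟩ := (mem_filter.1 hc).2
        refine (mem_compl.1 ha) (mem_filter.2 ⟨mem_univ _, c, ?_⟩)
        rw [pt_swap b hij] at ha' hg ⊢
        exact step _ i a' a ha' hg
      · obtain ⟨a, ha, c, hc, hg⟩ := hgood y b i j hij A Bᶜ hA (card_pos.1 (by omega)) (by omega)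
        obtain ⟨c', hc'⟩ := (mem_filter.1 ha).2
        exact (mem_compl.1 hc) (mem_filter.2 ⟨mem_univ _, a, step _ j c' c hc' hg⟩)
    intro a
    have : a ∈ A := by
      by_contra ha
      have : a ∈ Aᶜ := mem_compl.2 ha
      rw [hAu] at this
      exact absurd this (notMem_empty a)
    exact (mem_filter.1 this).2
  have hnt : Nontrivial (Fin d) := Fin.nontrivial_iff_two_le.2 hd
  have hnt' : Nontrivial (Fin n) := Fin.nontrivial_iff_two_le.2 hn
  let Q : (Fin d → Fin n) → Prop := fun w => ∀ i, ∃ c, R (update w i c)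
  have alive : ∀ w i, (∃ c, R (update w i c)) → Q w := by
    rintro w i ⟨c, hc⟩ j
    by_cases hij : i = j
    · exact ⟨c, hij ▸ hc⟩
    · have := plane w i j hij ⟨c, w j, by
        rw [pt_swap w hij, pt, update_eq_self]; exact hc⟩ (w i)
      simpa [pt] using this
  have move : ∀ w j v, Q w → Q (update w j v) := by
    intro w j v hw
    obtain ⟨i, hij⟩ := exists_ne j
    obtain ⟨c, hc⟩ := hw i
    refine alive _ i (plane w j i hij.symm ⟨w j, c, ?_⟩ v)
    rw [pt, update_eq_self]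
    exact hc
  have start : Q y := by
    intro i
    obtain ⟨c, hc⟩ := exists_ne (y i)
    refine ⟨c, 0, mem_E0.2 ?_⟩
    have := hamming_update y i hc
    rwa [update_eq_self] at this
  have all : ∀ S : Finset (Fin d), Q (S.piecewise x y) := by
    intro S
    induction S using Finset.induction_on with
    | empty => simpa using start
    | insert j S hj ih =>
      rw [piecewise_insert]
      exact move _ _ _ ih
  have hx : Q x := by simpa using all univ
  intro hG
  obtain ⟨i, -⟩ := exists_pair_ne (Fin d)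
  obtain ⟨c, hc⟩ := hx i
  have := step x i c (x i) hc (by rwa [update_eq_self])
  rwa [update_eq_self] at this

lemma term_bound (hn : 4 ≤ n) {q : ℝ} (hq : 0 ≤ q) (hρ : (n : ℝ) ^ 2 * Real.exp (-(q * n / 4)) ≤ 1)
    {k : ℕ} (hk : k ∈ Icc 1 (n - 1)) :
    (n.choose k : ℝ) * (n.choose (n - k) * Real.exp (-(q * ((k * (n - k) - 1 : ℕ) : ℝ)))) ≤
      (n : ℝ) ^ 2 * Real.exp (-(q * n / 4)) := by
  rw [mem_Icc] at hk
  have key : ∀ j : ℕ, 1 ≤ j → 2 * j ≤ n → (n.choose j : ℝ) * (n.choose j *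
      Real.exp (-(q * ((j * (n - j) - 1 : ℕ) : ℝ)))) ≤ (n : ℝ) ^ 2 * Real.exp (-(q * n / 4)) := by
    intro j h1 h2
    have c1 : (n.choose j : ℝ) ≤ (n : ℝ) ^ j := by exact_mod_cast Nat.choose_le_pow n j
    have c2 : j * n ≤ 4 * (j * (n - j) - 1) := by
      obtain ⟨r, rfl⟩ : ∃ r, n = j + r := ⟨n - j, by omega⟩
      rw [Nat.add_sub_cancel_left]
      have : j ≤ r := by omega
      have h3 : 4 + j * (j + r) ≤ 4 * (j * r) := by nlinarith
      omega
    have c3 : Real.exp (-(q * ((j * (n - j) - 1 : ℕ) : ℝ))) ≤ Real.exp (-(q * n / 4)) ^ j := by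
      rw [← Real.exp_nat_mul]
      apply Real.exp_le_exp.2
      have : (j : ℝ) * n ≤ 4 * ((j * (n - j) - 1 : ℕ) : ℝ) := by exact_mod_cast c2
      nlinarith
    calc _ ≤ (n : ℝ) ^ j * ((n : ℝ) ^ j * Real.exp (-(q * n / 4)) ^ j) := by gcongr
      _ = ((n : ℝ) ^ 2 * Real.exp (-(q * n / 4))) ^ j := by rw [mul_pow, ← pow_mul]; ring
      _ ≤ _ := pow_le_of_le_one (by positivity) hρ (by omega)
  rcases le_total (2 * k) n with h | h
  · rw [Nat.choose_symm (by omega : k ≤ n)]
    exact key k hk.1 h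
  · have := key (n - k) (by omega) (by omega)
    rw [show n - (n - k) = k by omega, mul_comm (n - k) k] at this
    rw [← Nat.choose_symm (by omega : k ≤ n)]
    exact this

lemma upper_bound (hd : 2 ≤ d) (hn : 4 ≤ n) {q : ℝ} (hq : 0 ≤ q) (hq1 : q ≤ 1)
    (hρ : (n : ℝ) ^ 2 * Real.exp (-(q * n / 4)) ≤ 1) :
    Pr (nonEdges d n) q (fun O => ¬ Saturated O) ≤
      (d : ℝ) ^ 2 * ((n : ℝ) ^ (2 * d + 3) * Real.exp (-(q * n / 4))) := by
  classical
  let S1 : Finset ((Fin d → Fin n) × (Fin d → Fin n) × Fin d × Fin d) :=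
    univ.filter (fun s => s.2.2.1 ≠ s.2.2.2)
  let B : ((Fin d → Fin n) × (Fin d → Fin n) × Fin d × Fin d) → Finset (Fin n) → Finset (Fin n) →
      Finset (Sym2 (Fin d → Fin n)) → Prop := fun s A C O =>
    rect s.1 s.2.1 s.2.2.1 s.2.2.2 A C ⊆ nonEdges d n ∧
      Disjoint O (rect s.1 s.2.1 s.2.2.1 s.2.2.2 A C)
  refine (Pr_union hq hq1 _ S1 (fun s O => ∃ k ∈ Icc 1 (n - 1),
      ∃ A ∈ powersetCard k (univ : Finset (Fin n)),
      ∃ C ∈ powersetCard (n - k) (univ : Finset (Fin n)), B s A C O) ?_).trans ?_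
  · intro O hO hns
    by_contra hcon
    refine hns (saturated_of_rect hd (by omega) O hO ?_)
    intro y b i j hij k hk A hA C hC hB
    exact hcon ⟨(y, b, i, j), mem_filter.2 ⟨mem_univ _, hij⟩, k, hk, A, hA, C, hC, hB⟩
  have hs : ∀ s ∈ S1, Pr (nonEdges d n) q (fun O => ∃ k ∈ Icc 1 (n - 1),
      ∃ A ∈ powersetCard k (univ : Finset (Fin n)),
      ∃ C ∈ powersetCard (n - k) (univ : Finset (Fin n)), B s A C O) ≤
      n * ((n : ℝ) ^ 2 * Real.exp (-(q * n / 4))) := by
    intro s hs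
    have hij : s.2.2.1 ≠ s.2.2.2 := (mem_filter.1 hs).2
    refine (Pr_union hq hq1 _ (Icc 1 (n - 1)) (fun k O =>
      ∃ A ∈ powersetCard k (univ : Finset (Fin n)),
      ∃ C ∈ powersetCard (n - k) (univ : Finset (Fin n)), B s A C O) (fun O _ h => h)).trans ?_
    refine (sum_le_card_nsmul _ _ ((n : ℝ) ^ 2 * Real.exp (-(q * n / 4))) ?_).trans ?_
    · intro k hk
      refine le_trans ?_ (term_bound hn hq hρ hk)
      refine (Pr_union hq hq1 _ (powersetCard k (univ : Finset (Fin n))) (fun A O =>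
        ∃ C ∈ powersetCard (n - k) (univ : Finset (Fin n)), B s A C O) (fun O _ h => h)).trans ?_
      refine (sum_le_card_nsmul _ _ (n.choose (n - k) *
        Real.exp (-(q * ((k * (n - k) - 1 : ℕ) : ℝ)))) ?_).trans ?_
      · intro A hA
        refine (Pr_union hq hq1 _ (powersetCard (n - k) (univ : Finset (Fin n))) (fun C O =>
          B s A C O) (fun O _ h => h)).trans ?_
        refine (sum_le_card_nsmul _ _ (Real.exp (-(q * ((k * (n - k) - 1 : ℕ) : ℝ)))) ?_).trans ?_
        · intro C hC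
          refine (Pr_disjoint hq1 _).trans (Real.exp_le_exp.2 ?_)
          have := card_rect s.1 s.2.1 hij A C
          rw [(mem_powersetCard.1 hA).2, (mem_powersetCard.1 hC).2] at this
          have h2 : ((k * (n - k) - 1 : ℕ) : ℝ) ≤ (rect s.1 s.2.1 s.2.2.1 s.2.2.2 A C).card := by
            exact_mod_cast Nat.sub_le_iff_le_add.2 this
          nlinarith
        · simp
      · simp
    · rw [nsmul_eq_mul, Nat.card_Icc]
      gcongr
      omega
  refine (sum_le_card_nsmul _ _ _ hs).trans ?_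
  have hc : (S1.card : ℝ) ≤ (n : ℝ) ^ d * ((n : ℝ) ^ d * (d * d)) := by
    have := card_le_univ S1
    simp only [Fintype.card_prod, Fintype.card_fun, Fintype.card_fin] at this
    exact_mod_cast this
  rw [nsmul_eq_mul]
  refine (mul_le_mul_of_nonneg_right hc (by positivity)).trans_eq ?_
  ring

end Pool.Agent.H791Z.Ham
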