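import Mathlib
import Pool.Agent.H791Z.Ham.Upper

/-! The subcritical side: witness counting. -/

namespace Pool.Agent.H791Z.Ham

open Finset Function

variable {d n : ℕ}

/-- witnesses for an occupied edge, for a fixed choice `z` of apexes -/
inductive Wit (O : Finset (Sym2 (Fin d → Fin n))) (z : Sym2 (Fin d → Fin n) → Fin d → Fin n) :
    (Fin d → Fin n) → (Fin d → Fin n) → Finset (Sym2 (Fin d → Fin n)) → Prop
  | base (x y : Fin d → Fin n) : hammingDist x y = 1 → Wit O z x y ∅
  | step (x y : Fin d → Fin n) (W1 W2 : Finset (Sym2 (Fin d → Fin n))) : s(x, y) ∈ O →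
      Wit O z x (z s(x, y)) W1 → Wit O z (z s(x, y)) y W2 →
      Wit O z x y (insert s(x, y) (W1 ∪ W2))

variable {O : Finset (Sym2 (Fin d → Fin n))} {z : Sym2 (Fin d → Fin n) → Fin d → Fin n}

lemma Wit.symm {x y W} (h : Wit O z x y W) : Wit O z y x W := by
  induction h with
  | base x y h => exact Wit.base y x (by rwa [hammingDist_comm])
  | step x y W1 W2 h _ _ ih1 ih2 =>
    have e : s(x, y) = s(y, x) := Sym2.eq_swap
    rw [union_comm, e]
    rw [e] at h ih1 ih2
    exact Wit.step y x W2 W1 h ih2 ih1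

lemma exists_wit (O : Finset (Sym2 (Fin d → Fin n))) :
    ∃ z, ∀ t x y, s(x, y) ∈ occ O t → ∃ W, Wit O z x y W := by
  classical
  have : ∀ e : Sym2 (Fin d → Fin n), ∃ w, ∀ t,
      (∃ x y v, e = s(x, y) ∧ s(x, v) ∈ occ O t ∧ s(v, y) ∈ occ O t) →
      ∃ x y, e = s(x, y) ∧ s(x, w) ∈ occ O t ∧ s(w, y) ∈ occ O t := by
    intro e
    by_cases h : ∃ t, ∃ x y v, e = s(x, y) ∧ s(x, v) ∈ occ O t ∧ s(v, y) ∈ occ O t
    · obtain ⟨x, y, v, h1, h2, h3⟩ := Nat.find_spec h
      refine ⟨v, fun t ht => ⟨x, y, h1, ?_, ?_⟩⟩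
      · exact occ_mono O (Nat.find_min' h ht) h2
      · exact occ_mono O (Nat.find_min' h ht) h3
    · exact ⟨e.out.1, fun t ht => absurd ⟨t, ht⟩ h⟩
  choose z hz using this
  refine ⟨z, fun t => ?_⟩
  induction t with
  | zero => exact fun x y h => ⟨∅, Wit.base x y (mem_E0.1 h)⟩
  | succ t ih =>
    rintro x y (h | ⟨h, h'⟩)
    · exact ih x y h
    · obtain ⟨a, b, e, h1, h2⟩ := hz _ t h'
      obtain ⟨W1, w1⟩ := ih _ _ h1
      obtain ⟨W2, w2⟩ := ih _ _ h2
      rw [e] at h w1 w2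
      have := Wit.step a b W1 W2 h w1 w2
      rcases Sym2.eq_iff.1 e with ⟨rfl, rfl⟩ | ⟨rfl, rfl⟩
      · exact ⟨_, this⟩
      · exact ⟨_, this.symm⟩

lemma Wit.subset {x y W} (h : Wit O z x y W) : W ⊆ O := by
  induction h with
  | base x y h => exact empty_subset _
  | step x y W1 W2 h _ _ ih1 ih2 => exact insert_subset h (union_subset ih1 ih2)

lemma Wit.scale {x y W} (h : Wit O z x y W) {K : ℕ} (hK : 1 ≤ K) (hW : K ≤ W.card) :
    ∃ x' y' W', Wit O z x' y' W' ∧ K ≤ W'.card ∧ W'.card ≤ 2 * K := by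
  induction h with
  | base x y h => simp at hW; omega
  | step x y W1 W2 h w1 w2 ih1 ih2 =>
    by_cases h1 : K ≤ W1.card
    · exact ih1 h1
    by_cases h2 : K ≤ W2.card
    · exact ih2 h2
    refine ⟨x, y, _, Wit.step x y W1 W2 h w1 w2, hW, ?_⟩
    have := card_insert_le s(x, y) (W1 ∪ W2)
    have := card_union_le W1 W2
    omega

lemma Wit.pos {x y W} (h : Wit O z x y W) (hxy : s(x, y) ∉ E0 d n) : 1 ≤ W.card := by
  cases h with
  | base _ _ h => exact absurd (mem_E0.2 h) hxy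
  | step _ _ W1 W2 h _ _ => exact card_pos.2 ⟨_, mem_insert_self _ _⟩

/-- connectivity in closure form -/
def Cn (U : Finset (Fin d → Fin n)) : Prop :=
  ∀ T : Set (Fin d → Fin n), (∃ a ∈ U, a ∈ T) →
    (∀ u ∈ U, ∀ v ∈ U, u ∈ T → hammingDist u v = 1 → v ∈ T) → ∀ b ∈ U, b ∈ T

lemma Wit.struct {x y W} (h : Wit O z x y W) :
    W ⊆ (insert x (insert y (W.image z))).sym2 ∧ Cn (insert x (insert y (W.image z))) := by
  induction h with
  | base x y h =>
    refine ⟨empty_subset _, ?_⟩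
    rintro T ⟨a, ha, haT⟩ hT b hb
    simp only [image_empty, insert_empty_eq, mem_insert, mem_singleton] at ha hb hT
    rcases ha with rfl | rfl <;> rcases hb with rfl | rfl
    · exact haT
    · exact hT _ (Or.inl rfl) _ (Or.inr rfl) haT h
    · exact hT _ (Or.inr rfl) _ (Or.inl rfl) haT (by rwa [hammingDist_comm])
    · exact haT
  | step x y W1 W2 h _ _ ih1 ih2 =>
    set U1 := insert x (insert (z s(x, y)) (W1.image z))
    set U2 := insert (z s(x, y)) (insert y (W2.image z))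
    have e : insert x (insert y ((insert s(x, y) (W1 ∪ W2)).image z)) = U1 ∪ U2 := by
      ext a
      simp only [U1, U2, image_insert, image_union, mem_insert, mem_union]
      tauto
    rw [e]
    have z1 : z s(x, y) ∈ U1 := mem_insert_of_mem (mem_insert_self _ _)
    have z2 : z s(x, y) ∈ U2 := mem_insert_self _ _
    constructor
    · refine insert_subset ?_ (union_subset (ih1.1.trans (sym2_mono subset_union_left))
        (ih2.1.trans (sym2_mono subset_union_right)))
      rw [mk_mem_sym2_iff]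
      exact ⟨mem_union_left _ (mem_insert_self _ _),
        mem_union_right _ (mem_insert_of_mem (mem_insert_self _ _))⟩
    · rintro T ⟨a, ha, haT⟩ hT
      have k1 := fun h => ih1.2 T h (fun u hu v hv =>
        hT u (mem_union_left _ hu) v (mem_union_left _ hv))
      have k2 := fun h => ih2.2 T h (fun u hu v hv =>
        hT u (mem_union_right _ hu) v (mem_union_right _ hv))
      have zT : z s(x, y) ∈ T := by
        rcases mem_union.1 ha with ha | ha
        · exact k1 ⟨a, ha, haT⟩ _ z1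
        · exact k2 ⟨a, ha, haT⟩ _ z2
      intro b hb
      rcases mem_union.1 hb with hb | hb
      · exact k1 ⟨_, z1, zT⟩ b hb
      · exact k2 ⟨_, z2, zT⟩ b hb

/-- a list of all connected sets with at most `k + 1` points containing `x` -/
def Conn (x : Fin d → Fin n) : ℕ → Finset (Finset (Fin d → Fin n))
  | 0 => {{x}}
  | k + 1 => Conn x k ∪ (Conn x k).biUnion (fun U =>
      (U ×ˢ (univ : Finset (Fin d × Fin n))).image (fun s => insert (update s.1 s.2.1 s.2.2) U))

lemma Conn_card_le (x : Fin d → Fin n) (k : ℕ) : ∀ U ∈ Conn x k, U.card ≤ k + 1 := by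
  induction k with
  | zero => simp [Conn]
  | succ k ih =>
    intro U hU
    rcases mem_union.1 hU with hU | hU
    · exact (ih U hU).trans (by omega)
    · obtain ⟨U', hU', h⟩ := mem_biUnion.1 hU
      obtain ⟨s, -, rfl⟩ := mem_image.1 h
      exact (card_insert_le _ _).trans (Nat.succ_le_succ (ih U' hU'))

lemma card_Conn (hd : 1 ≤ d) (hn : 1 ≤ n) (x : Fin d → Fin n) (k : ℕ) :
    (Conn x k).card ≤ ((k + 1) * (d * n)) ^ k := by
  induction k with
  | zero => simp [Conn]
  | succ k ih =>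
    have h1 : 1 ≤ d * n := Nat.mul_pos hd hn
    have h2 : ((Conn x k).biUnion (fun U => (U ×ˢ (univ : Finset (Fin d × Fin n))).image
        (fun s => insert (update s.1 s.2.1 s.2.2) U))).card ≤
        (Conn x k).card * ((k + 1) * (d * n)) := by
      refine card_biUnion_le_card_mul _ _ _ fun U hU => card_image_le.trans ?_
      rw [card_product, card_univ, Fintype.card_prod, Fintype.card_fin, Fintype.card_fin]
      exact Nat.mul_le_mul_right _ (Conn_card_le x k U hU)
    calc (Conn x (k + 1)).card ≤ (Conn x k).card + (Conn x k).card * ((k + 1) * (d * n)) :=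
          (card_union_le _ _).trans (Nat.add_le_add_left h2 _)
      _ = (Conn x k).card * (1 + (k + 1) * (d * n)) := by ring
      _ ≤ ((k + 1 + 1) * (d * n)) ^ k * ((k + 1 + 1) * (d * n)) := by
          refine Nat.mul_le_mul (ih.trans (Nat.pow_le_pow_left ?_ _)) (by nlinarith)
          exact Nat.mul_le_mul_right _ (by omega)
      _ = _ := by rw [← pow_succ]

lemma Conn_mono (x : Fin d → Fin n) {j k : ℕ} (h : j ≤ k) : Conn x j ⊆ Conn x k := by
  induction h with
  | refl => exact Subset.rfl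
  | step _ ih => exact ih.trans subset_union_left

lemma mem_Conn {x : Fin d → Fin n} {U : Finset (Fin d → Fin n)} (hx : x ∈ U) (hU : Cn U) {k : ℕ}
    (hk : U.card ≤ k + 1) : U ∈ Conn x k := by
  have key : ∀ j, j + 1 ≤ U.card → ∃ T ∈ Conn x j, T ⊆ U ∧ x ∈ T ∧ T.card = j + 1 := by
    intro j
    induction j with
    | zero => exact fun _ => ⟨{x}, by simp [Conn], by simpa using hx, by simp, by simp⟩
    | succ j ih =>
      intro hj
      obtain ⟨T, hT, hTU, hxT, hc⟩ := ih (by omega)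
      have : ∃ u ∈ U, ∃ v ∈ U, u ∈ T ∧ hammingDist u v = 1 ∧ v ∉ T := by
        by_contra hcon
        push Not at hcon
        have := hU (T : Set _) ⟨x, hx, hxT⟩ (fun u hu v hv huT huv => hcon u hu v hv huT huv)
        have := card_le_card (show U ⊆ T from this)
        omega
      obtain ⟨u, hu, v, hv, huT, huv, hvT⟩ := this
      refine ⟨insert v T, ?_, insert_subset hv hTU, mem_insert_of_mem hxT, ?_⟩
      · refine mem_union_right _ (mem_biUnion.2 ⟨T, hT, ?_⟩)
        unfold hammingDist at huv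
        obtain ⟨i, hi⟩ := card_eq_one.1 huv
        refine mem_image.2 ⟨(u, i, v i), mem_product.2 ⟨huT, mem_univ _⟩, ?_⟩
        congr 1
        funext l
        by_cases hl : l = i
        · subst hl; simp
        · rw [update_of_ne hl]
          by_contra hne
          have : l ∈ ({i} : Finset (Fin d)) := by
            rw [← hi]; simpa using hne
          exact hl (mem_singleton.1 this)
      · rw [card_insert_of_notMem hvT, hc]
  have hpos : 1 ≤ U.card := card_pos.2 ⟨x, hx⟩
  obtain ⟨T, hT, hTU, -, hc⟩ := key (U.card - 1) (by omega)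
  rw [← eq_of_subset_of_card_le hTU (by omega)]
  exact Conn_mono x (by omega) hT

/-- possible witnesses of size `k` at `x` -/
def Str (x : Fin d → Fin n) (k : ℕ) : Finset (Finset (Sym2 (Fin d → Fin n)) × (Fin d → Fin n)) :=
  (Conn x (k + 1)).biUnion (fun U => powersetCard k U.sym2 ×ˢ U)

lemma Wit.mem_Str {x y W} (h : Wit O z x y W) : (W, y) ∈ Str x W.card := by
  refine mem_biUnion.2 ⟨insert x (insert y (W.image z)),
    mem_Conn (mem_insert_self _ _) h.struct.2 ?_, mem_product.2 ⟨mem_powersetCard.2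
      ⟨h.struct.1, rfl⟩, mem_insert_of_mem (mem_insert_self _ _)⟩⟩
  have h1 := card_insert_le x (insert y (W.image z))
  have h2 := card_insert_le y (W.image z)
  have h3 : (W.image z).card ≤ W.card := card_image_le
  omega

/-- the constant in the number of witnesses -/
def cst (d k : ℕ) : ℕ := ((k + 2) * d) ^ (k + 1) * (2 ^ ((k + 3).choose 2) * (k + 2))

lemma card_Str (hd : 1 ≤ d) (hn : 1 ≤ n) (x : Fin d → Fin n) (k : ℕ) :
    (Str x k).card ≤ cst d k * n ^ (k + 1) := by
  refine (card_biUnion_le_card_mul _ _ (2 ^ ((k + 3).choose 2) * (k + 2)) fun U hU => ?_).trans ?_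
  · have hU := Conn_card_le x _ U hU
    rw [card_product, card_powersetCard, card_sym2]
    refine Nat.mul_le_mul ((Nat.choose_le_two_pow _ _).trans ?_) hU
    exact Nat.pow_le_pow_right (by norm_num) (Nat.choose_le_choose 2 (by omega))
  · refine (Nat.mul_le_mul_right _ (card_Conn hd hn x (k + 1))).trans_eq ?_
    rw [cst, ← mul_assoc (k + 1 + 1), mul_pow ((k + 1 + 1) * d)]
    ring

lemma sum_Str (hd : 1 ≤ d) (hn : 1 ≤ n) {p : ℝ} (hp : 0 ≤ p) (hnp : n * p ≤ 1) (x : Fin d → Fin n)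
    {K k : ℕ} (hk : K ≤ k) :
    ∑ s ∈ Str x k, Pr (nonEdges d n) p (fun O => s.1 ⊆ O) ≤ cst d k * (n * (n * p) ^ K) := by
  refine (sum_le_card_nsmul _ _ (p ^ k) fun s hs => ?_).trans ?_
  · obtain ⟨U, -, hs⟩ := mem_biUnion.1 hs
    rw [← (mem_powersetCard.1 (mem_product.1 hs).1).2]
    exact Pr_subset hp _
  · rw [nsmul_eq_mul]
    have h1 : ((Str x k).card : ℝ) ≤ cst d k * (n : ℝ) ^ (k + 1) := by
      exact_mod_cast card_Str hd hn x k
    refine (mul_le_mul_of_nonneg_right h1 (by positivity)).trans ?_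
    rw [mul_assoc]
    refine mul_le_mul_of_nonneg_left ?_ (by positivity)
    rw [show (n : ℝ) ^ (k + 1) * p ^ k = n * (n * p) ^ k by rw [mul_pow]; ring]
    exact mul_le_mul_of_nonneg_left (pow_le_pow_of_le_one (by positivity) hnp hk) (by positivity)

lemma lower_bound (hd : 3 ≤ d) (hn : 1 ≤ n) {p : ℝ} (hp : 0 ≤ p) (hp1 : p ≤ 1) (hnp : n * p ≤ 1)
    {K : ℕ} (hK : 1 ≤ K) :
    Pr (nonEdges d n) p Saturated ≤
      (∑ k ∈ Icc K (2 * K), (cst d k : ℝ)) * ((n : ℝ) ^ (d + 1) * (n * p) ^ K) +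
      (∑ k ∈ Icc 1 K, (cst d k : ℝ)) * (n * p) + n * Real.exp (-(p * ((n - 1) ^ 2 : ℕ))) := by
  classical
  let x0 : Fin d → Fin n := fun _ => ⟨0, hn⟩
  let i0 : Fin d := ⟨0, by omega⟩
  let i1 : Fin d := ⟨1, by omega⟩
  let i2 : Fin d := ⟨2, by omega⟩
  have h01 : i0 ≠ i1 := by simp [i0, i1]
  have h02 : i0 ≠ i2 := by simp [i0, i2]
  have h12 : i1 ≠ i2 := by simp [i1, i2]
  let Y : Fin n → Fin n × Fin n → Fin d → Fin n := fun a s => pt (update x0 i0 a) i1 i2 s.1 s.2
  have Y0 : ∀ a s, Y a s i0 = a := fun a s => by simp [Y, pt, h01, h02]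
  have Y1 : ∀ a s, Y a s i1 = s.1 := fun a s => by simp [Y, pt, h12]
  have Y2 : ∀ a s, Y a s i2 = s.2 := fun a s => by simp [Y, pt]
  let D : Finset (Fin n) := univ.erase ⟨0, hn⟩
  let Wg : Fin n → Finset (Sym2 (Fin d → Fin n)) := fun a => (D ×ˢ D).image (fun s => s(x0, Y a s))
  have hWg : ∀ a, Wg a ⊆ nonEdges d n := by
    intro a e he
    obtain ⟨s, hs, rfl⟩ := mem_image.1 he
    have s1 : s.1 ≠ ⟨0, hn⟩ := (mem_erase.1 (mem_product.1 hs).1).1
    have s2 : s.2 ≠ ⟨0, hn⟩ := (mem_erase.1 (mem_product.1 hs).2).1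
    have h2 : 2 ≤ hammingDist x0 (Y a s) := by
      rw [← card_pair h12]
      refine card_le_card fun i hi => ?_
      rw [mem_insert, mem_singleton] at hi
      rcases hi with rfl | rfl
      · simp only [mem_filter, mem_univ, true_and, Y1]; exact s1.symm
      · simp only [mem_filter, mem_univ, true_and, Y2]; exact s2.symm
    simp only [nonEdges, mem_filter, mem_univ, true_and, Sym2.mk_isDiag_iff, mem_E0]
    refine ⟨fun h => ?_, by omega⟩
    rw [← h, hammingDist_self] at h2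
    omega
  have cWg : ∀ a, (Wg a).card = (n - 1) ^ 2 := by
    intro a
    rw [card_image_of_injective, card_product, card_erase_of_mem (mem_univ _), card_univ,
      Fintype.card_fin, pow_two]
    intro s s' h
    have h := Sym2.congr_right.1 h
    exact Prod.ext ((Y1 a s).symm.trans (h ▸ Y1 a s')) ((Y2 a s).symm.trans (h ▸ Y2 a s'))
  let S2 := (Icc 1 K).sigma (fun k => Str x0 k)
  refine (Pr_or3 hp hp1 _
    (fun O => ∃ x ∈ (univ : Finset (Fin d → Fin n)), ∃ s ∈ (Icc K (2 * K)).sigma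
      (fun k => Str x k), s.2.1 ⊆ O)
    (fun O => ∃ T ⊆ S2, n ≤ T.card ∧ ∀ s ∈ T, s.2.1 ⊆ O)
    (fun O => ∃ a ∈ (univ : Finset (Fin n)), Wg a ⊆ nonEdges d n ∧ Disjoint O (Wg a)) ?_).trans ?_
  · intro O hO hsat
    obtain ⟨z, hz⟩ := exists_wit O
    by_contra hcon
    rw [not_or, not_or] at hcon
    obtain ⟨c1, c2, c3⟩ := hcon
    have small : ∀ x y W, Wit O z x y W → W.card ≤ K := by
      intro x y W hW
      by_contra hlt
      obtain ⟨x', y', W', w, k1, k2⟩ := hW.scale hK (by omega)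
      exact c1 ⟨x', mem_univ _, ⟨W'.card, W', y'⟩, mem_sigma.2 ⟨mem_Icc.2 ⟨k1, k2⟩, w.mem_Str⟩,
        w.subset⟩
    have : ∀ a : Fin n, ∃ s ∈ S2, s.2.2 i0 = a ∧ s.2.1 ⊆ O := by
      intro a
      obtain ⟨e, he, he'⟩ := not_disjoint_iff.1 (fun h => c3 ⟨a, mem_univ _, hWg a, h⟩)
      have hne := (mem_filter.1 (hWg a he')).2.2
      obtain ⟨s, -, rfl⟩ := mem_image.1 he'
      have : s(x0, Y a s) ∈ ⋃ t, occ O t := by rw [hsat]; exact Or.inr he
      obtain ⟨t, ht⟩ := Set.mem_iUnion.1 this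
      obtain ⟨W, hW⟩ := hz t _ _ ht
      exact ⟨⟨W.card, W, Y a s⟩, mem_sigma.2 ⟨mem_Icc.2 ⟨hW.pos hne, small _ _ _ hW⟩, hW.mem_Str⟩,
        Y0 a s, hW.subset⟩
    choose f hf1 hf2 hf3 using this
    refine c2 ⟨univ.image f, ?_, ?_, ?_⟩
    · intro s hs
      obtain ⟨a, -, rfl⟩ := mem_image.1 hs
      exact hf1 a
    · rw [card_image_of_injective, card_univ, Fintype.card_fin]
      intro a b h
      rw [← hf2 a, ← hf2 b, h]
    · intro s hs
      obtain ⟨a, -, rfl⟩ := mem_image.1 hs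
      exact hf3 a
  refine add_le_add (add_le_add ?_ ?_) ?_
  · refine (Pr_union hp hp1 _ univ (fun x O => ∃ s ∈ (Icc K (2 * K)).sigma
      (fun k => Str x k), s.2.1 ⊆ O) (fun O _ h => h)).trans ?_
    refine (sum_le_card_nsmul _ _ ((∑ k ∈ Icc K (2 * K), (cst d k : ℝ)) * (n * (n * p) ^ K))
      fun x _ => ?_).trans ?_
    · refine (Pr_union hp hp1 _ ((Icc K (2 * K)).sigma (fun k => Str x k))
        (fun s O => s.2.1 ⊆ O) (fun O _ h => h)).trans ?_
      rw [sum_sigma, sum_mul]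
      exact sum_le_sum fun k hk => sum_Str (by omega) hn hp hnp x (mem_Icc.1 hk).1
    · rw [card_univ, Fintype.card_fun, Fintype.card_fin, Fintype.card_fin, nsmul_eq_mul]
      push_cast
      exact le_of_eq (by ring)
  · have := Pr_markov hp hp1 _ S2 (fun s O => s.2.1 ⊆ O) n (U := nonEdges d n) (fun O _ h => h)
    have hn' : (0 : ℝ) < n := by exact_mod_cast hn
    refine le_of_mul_le_mul_left (this.trans ?_) hn'
    rw [sum_sigma, mul_left_comm, sum_mul]
    refine sum_le_sum fun k hk => ?_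
    simpa using sum_Str (by omega) hn hp hnp x0 (mem_Icc.1 hk).1
  · refine (Pr_union hp hp1 _ univ (fun a O => Wg a ⊆ nonEdges d n ∧ Disjoint O (Wg a))
      (fun O _ h => h)).trans ?_
    refine (sum_le_card_nsmul _ _ (Real.exp (-(p * ((n - 1) ^ 2 : ℕ)))) fun a _ => ?_).trans ?_
    · rw [← cWg a]
      exact Pr_disjoint hp1 _
    · simp

end Pool.Agent.H791Z.Ham
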