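import Mathlib
import Pool.Agent.H791Z.Ham.Lower

/-! Asymptotics: the critical density is `n^(-1+o(1))`. -/

namespace Pool.Agent.H791Z.Ham

open Finset Filter Topology

lemma satProb_eq (d n : ℕ) (p : ℝ) : satProb d n p = Pr (nonEdges d n) p Saturated := rfl

lemma tendsto_aux (s e b : ℝ) (he : 0 < e) (hb : 0 < b) :
    Tendsto (fun n : ℕ => (n : ℝ) ^ s * Real.exp (-(b * (n : ℝ) ^ e))) atTop (𝓝 0) := by
  have h1 := (tendsto_rpow_mul_exp_neg_mul_atTop_nhds_zero (s / e) b hb).comp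
    ((tendsto_rpow_atTop he).comp tendsto_natCast_atTop_atTop)
  refine h1.congr fun n => ?_
  simp only [Function.comp]
  rw [← Real.rpow_mul (Nat.cast_nonneg n), mul_div_cancel₀ _ he.ne', neg_mul]

lemma upper_eventually {d : ℕ} (hd : 2 ≤ d) {ε : ℝ} (hε : 0 < ε) :
    ∀ᶠ n : ℕ in atTop, ∀ q : ℝ, (n : ℝ) ^ (-1 + ε) ≤ q → q ≤ 1 → 1 / 2 ≤ satProb d n q := by
  have h1 := (tendsto_aux (2 * d + 3 : ℕ) ε (1 / 4) hε (by norm_num)).const_mul ((d : ℝ) ^ 2)
  rw [mul_zero] at h1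
  filter_upwards [h1.eventually_le_const (show (0 : ℝ) < 1 / 2 by norm_num),
    eventually_ge_atTop 4] with n h hn q hq hq1
  have hn' : (4 : ℝ) ≤ n := by exact_mod_cast hn
  have hq0 : 0 ≤ q := le_trans (by positivity) hq
  have h2 : Real.exp (-(q * n / 4)) ≤ Real.exp (-(1 / 4 * (n : ℝ) ^ ε)) := by
    apply Real.exp_le_exp.2
    have : (n : ℝ) ^ ε = (n : ℝ) ^ (-1 + ε) * n := by
      rw [← Real.rpow_add_one (by positivity)]; congr 1; ring
    rw [this]
    nlinarith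
  rw [Real.rpow_natCast] at h
  have h3 : (d : ℝ) ^ 2 * ((n : ℝ) ^ (2 * d + 3) * Real.exp (-(q * n / 4))) ≤ 1 / 2 :=
    le_trans (by gcongr) h
  have hd' : (2 : ℝ) ≤ d := by exact_mod_cast hd
  have h4 : (n : ℝ) ^ 2 * Real.exp (-(q * n / 4)) ≤ 1 := by
    have h5 : (n : ℝ) ^ 2 * Real.exp (-(q * n / 4)) ≤
        (n : ℝ) ^ (2 * d + 3) * Real.exp (-(q * n / 4)) := by
      gcongr
      · linarith
      · omega
    have h6 : 0 ≤ (n : ℝ) ^ (2 * d + 3) * Real.exp (-(q * n / 4)) := by positivity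
    nlinarith
  have h7 := upper_bound hd hn hq0 hq1 h4
  have h8 := Pr_add_not (U := nonEdges d n) (p := q) Saturated
  rw [satProb_eq]
  linarith

lemma lower_eventually {d : ℕ} (hd : 3 ≤ d) {ε : ℝ} (hε : 0 < ε) (hε1 : ε < 1) :
    ∀ᶠ n : ℕ in atTop, satProb d n ((n : ℝ) ^ (-1 - ε)) < 1 / 2 := by
  obtain ⟨K, hK⟩ := exists_nat_gt ((d + 1 : ℝ) / ε)
  have hK' : (d + 1 : ℝ) < K * ε := (div_lt_iff₀ hε).1 hK
  have hK1 : 1 ≤ K := by
    rcases Nat.eq_zero_or_pos K with rfl | h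
    · exfalso
      simp only [Nat.cast_zero, zero_mul] at hK'
      have : (0 : ℝ) ≤ d := Nat.cast_nonneg d
      linarith
    · exact h
  have t1 := ((tendsto_rpow_neg_atTop (show 0 < K * ε - (d + 1) by linarith)).comp
    tendsto_natCast_atTop_atTop).const_mul (∑ k ∈ Icc K (2 * K), (cst d k : ℝ))
  have t2 := ((tendsto_rpow_neg_atTop hε).comp
    tendsto_natCast_atTop_atTop).const_mul (∑ k ∈ Icc 1 K, (cst d k : ℝ))
  have t3 := tendsto_aux 1 (1 - ε) (1 / 4) (by linarith) (by norm_num)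
  have t := (t1.add t2).add t3
  simp only [mul_zero, add_zero] at t
  filter_upwards [t.eventually_lt_const (show (0 : ℝ) < 1 / 2 by norm_num),
    eventually_ge_atTop 2] with n h hn
  have hn' : (2 : ℝ) ≤ n := by exact_mod_cast hn
  have hn0 : (0 : ℝ) < n := by linarith
  have e1 : (n : ℝ) * (n : ℝ) ^ (-1 - ε) = (n : ℝ) ^ (-ε) := by
    rw [mul_comm, ← Real.rpow_add_one hn0.ne']; congr 1; ring
  have hb := lower_bound hd (n := n) (by omega) (p := (n : ℝ) ^ (-1 - ε)) (by positivity)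
    (Real.rpow_le_one_of_one_le_of_nonpos (by linarith) (by linarith))
    (by rw [e1]; exact Real.rpow_le_one_of_one_le_of_nonpos (by linarith) (by linarith)) hK1
  rw [satProb_eq]
  refine lt_of_le_of_lt (hb.trans ?_) h
  simp only [Function.comp]
  rw [e1]
  refine add_le_add (add_le_add (le_of_eq ?_) le_rfl) ?_
  · congr 1
    rw [← Real.rpow_natCast, ← Real.rpow_natCast, ← Real.rpow_mul hn0.le, ← Real.rpow_add hn0]
    congr 1
    push_cast
    ring
  · rw [Real.rpow_one]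
    refine mul_le_mul_of_nonneg_left (Real.exp_le_exp.2 (neg_le_neg ?_)) hn0.le
    have e2 : (n : ℝ) ^ (1 - ε) = (n : ℝ) ^ (-1 - ε) * (n : ℝ) ^ 2 := by
      rw [← Real.rpow_natCast, ← Real.rpow_add hn0]; congr 1; push_cast; ring
    rw [e2, mul_left_comm]
    refine mul_le_mul_of_nonneg_left ?_ (by positivity)
    rw [Nat.cast_pow, Nat.cast_sub (by omega)]
    push_cast
    nlinarith

theorem main (d : ℕ) (hd : 3 ≤ d) (ε : ℝ) (hε : 0 < ε) :
    ∃ N : ℕ, ∀ n ≥ N, (n : ℝ) ^ (-1 - ε) ≤ pc d n ∧ pc d n ≤ (n : ℝ) ^ (-1 + ε) := by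
  have hδ : 0 < min ε (1 / 2) := lt_min hε (by norm_num)
  have hδ1 : min ε (1 / 2) ≤ 1 / 2 := min_le_right _ _
  have hδ2 : min ε (1 / 2) ≤ ε := min_le_left _ _
  refine eventually_atTop.1 ?_
  filter_upwards [upper_eventually (d := d) (by omega) hδ,
    lower_eventually hd hδ (by linarith), eventually_ge_atTop 1] with n h1 h2 hn
  have hn' : (1 : ℝ) ≤ n := by exact_mod_cast hn
  have mem : (n : ℝ) ^ (-1 + min ε (1 / 2)) ∈
      {p : ℝ | 0 ≤ p ∧ p ≤ 1 ∧ ∀ q : ℝ, p ≤ q → q ≤ 1 → 1 / 2 ≤ satProb d n q} :=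
    ⟨by positivity, Real.rpow_le_one_of_one_le_of_nonpos hn' (by linarith), h1⟩
  constructor
  · refine le_trans (Real.rpow_le_rpow_of_exponent_le hn' (show -1 - ε ≤ -1 - min ε (1 / 2) by
      linarith)) (le_csInf ⟨_, mem⟩ ?_)
    rintro p ⟨-, -, hp⟩
    by_contra hlt
    have := hp _ (not_le.1 hlt).le (Real.rpow_le_one_of_one_le_of_nonpos hn' (by linarith))
    linarith
  · refine le_trans (csInf_le ⟨0, fun p hp => hp.1⟩ mem) ?_
    exact Real.rpow_le_rpow_of_exponent_le hn' (by linarith)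

end Pool.Agent.H791Z.Ham
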